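import Mathlib
import Pool.Prelude.Def_F_c31e40fa
import Pool.Agent.Run7.h598.HM.Cnt2

set_option autoImplicit false

open MeasureTheory Filter Metric Set Topology

namespace Pool.Agent.Results.MP_c35c17_an.ManyCentresEveryPeriod

/-- The map `z ↦ z ^ d + c`. -/
def f (d : ℕ) (c : ℂ) : ℂ → ℂ := fun z => z ^ d + c

/-- The escape rate (Green's function) of `z ↦ z ^ d + c` at the point `z`. -/
noncomputable def green (d : ℕ) (c z : ℂ) : ℝ :=
  limsup (fun n : ℕ => Real.posLog ‖(f d c)^[n] z‖ / (d : ℝ) ^ n) atTop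

/-- `B d c s a b` is `(d / π)` times the geometric mean of two moments of the sublevel set
`{green ≤ s}`, where `a + b = d - 2`. For `d = 2` it is `(2 / π)` times the area of the set. -/
noncomputable def B (d : ℕ) (c : ℂ) (s : ℝ) (a b : ℕ) : ℝ :=
  d / Real.pi * √((∫ z in {z | green d c z ≤ s}, ‖z‖ ^ (2 * a)) *
    ∫ z in {z | green d c z ≤ s}, ‖z‖ ^ (2 * b))

/-- `ψ` is a conformal isomorphism from the exterior of the closed unit disc onto the complement
of `K` with `ψ z / z → 1` at infinity. -/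
def IsExterior (K : Set ℂ) (ψ : ℂ → ℂ) : Prop :=
  DifferentiableOn ℂ ψ {z | 1 < ‖z‖} ∧ InjOn ψ {z | 1 < ‖z‖} ∧ ψ '' {z | 1 < ‖z‖} = Kᶜ ∧
    Tendsto (fun z => ψ z / z) (Bornology.cobounded ℂ) (𝓝 1)

/-- The harmonic measure (from infinity) of the disc of radius `r` about `c`: the proportion of
the angles whose rays land in the disc. -/
noncomputable def harm (ψ : ℂ → ℂ) (c : ℂ) (r : ℝ) : ℝ :=
  (volume {θ : ℝ | θ ∈ Ioc 0 (2 * Real.pi) ∧ ∃ ζ ∈ ball c r,
    Tendsto (fun ρ : ℝ => ψ (ρ * Complex.exp (θ * Complex.I))) (𝓝[>] 1) (𝓝 ζ)}).toReal /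
      (2 * Real.pi)

/-- The parameters at distance less than `r` from `c` for which the critical point `0` is
periodic of exact period `m`. -/
def centres (d m : ℕ) (c : ℂ) (r : ℝ) : Set ℂ :=
  {c' | ‖c' - c‖ < r ∧ Function.minimalPeriod (f d c') 0 = m}

/-- Lower bounds, of the right order, for the harmonic measure of the Multibrot set and for the
number of superattracting parameters of each exact period near a parameter `c`, at the scale given
by the level sets of the Green function of `f_c`. -/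
theorem result (d : ℕ) (hd : 2 ≤ d) :
    -- (1) the harmonic measure of the Multibrot set near each of its points
    (∀ ψ : ℂ → ℂ, IsExterior (N62a1eb23.multibrotSet d) ψ → ∀ c ∈ N62a1eb23.multibrotSet d,
      ∀ s ∈ Ioc (0 : ℝ) 1, ∀ a b : ℕ, a + b + 2 = d → ∀ r : ℝ, B d c s a b < r →
        s / 80 ≤ harm ψ c (10 * r)) ∧
    -- (2) the number of parameters at which `0` returns to itself at the time `m`
    (∃ K : ℝ, 0 < K ∧ ∀ m : ℕ, 1 ≤ m → ∀ c ∈ N62a1eb23.multibrotSet d, ∀ s ∈ Ioc (0 : ℝ) 1,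
      K * m ≤ s * (d : ℝ) ^ m → ∀ a b : ℕ, a + b + 2 = d → ∀ r : ℝ, B d c s a b < r →
        s * (d : ℝ) ^ m / (160 * d) ≤
          {c' : ℂ | ‖c' - c‖ < 20 * r ∧ (f d c')^[m] 0 = 0}.ncard) ∧
    -- (3) the number of superattracting parameters of exact period `m`, for every `m`
    (∃ K : ℝ, 0 < K ∧ ∀ m : ℕ, 1 ≤ m → ∀ c ∈ N62a1eb23.multibrotSet d, ∀ s ∈ Ioc (0 : ℝ) 1,
      K ≤ s * √d ^ m → ∀ a b : ℕ, a + b + 2 = d → ∀ r : ℝ, B d c s a b < r →
        (centres d m c (20 * r)).Finite ∧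
          s * (d : ℝ) ^ m / (320 * d) ≤ (centres d m c (20 * r)).ncard) ∧
    -- (4) the local density at parameters with polynomial decay of the level sets
    (∀ α : ℝ, 0 < α → ∀ C : ℝ, ∃ δ K : ℝ, 0 < δ ∧ 0 < K ∧ ∀ c ∈ N62a1eb23.multibrotSet d,
      (∀ s ∈ Ioc (0 : ℝ) 1, volume {z : ℂ | green d c z ≤ s} ≤ ENNReal.ofReal (C * s ^ α)) →
      ∀ m : ℕ, 1 ≤ m → ∀ r ∈ Ioc (0 : ℝ) 1, K ≤ r ^ (1 / α) * √d ^ m →
        δ * r ^ (1 / α) * (d : ℝ) ^ m ≤ (centres d m c r).ncard ∧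
        ∀ c' ∈ centres d m c r, N62a1eb23.IsAttractingCycle (f d c') m 0) := by
  have hdR : (2 : ℝ) ≤ d := by exact_mod_cast hd
  have hcount : ∀ m : ℕ, 1 ≤ m → ∀ c ∈ N62a1eb23.multibrotSet d, ∀ s ∈ Ioc (0 : ℝ) 1,
      Pool.Agent.Run7.h598.HM.KE d ≤ s * √d ^ m → ∀ a b : ℕ, a + b + 2 = d → ∀ r : ℝ,
      B d c s a b < r → (centres d m c (20 * r)).Finite ∧
        s * (d : ℝ) ^ m / (320 * d) ≤ (centres d m c (20 * r)).ncard := by
    intro m hm c hc s hs hK a b hab r hr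
    obtain ⟨N, rfl⟩ : ∃ N, m = N + 1 := ⟨m - 1, by omega⟩
    exact ⟨Pool.Agent.Run7.h598.HM.Ex_fin hd N c (20 * r),
      Pool.Agent.Run7.h598.HM.count_exact hab hc hs.1 hs.2 hr N hK⟩
  refine ⟨?_, ?_, ?_, ?_⟩
  · rintro ψ ⟨h1, h2, h3, h4⟩ c hc s hs a b hab r hr
    exact Pool.Agent.Run7.h598.HM.harm_lower ⟨h1, h2, h3, h4⟩ hab hc hs.1 hs.2 hr
  · refine ⟨_, Pool.Agent.Run7.h598.HM.KF_pos hd, ?_⟩
    intro m hm c hc s hs hK a b hab r hr
    obtain ⟨N, rfl⟩ : ∃ N, m = N + 1 := ⟨m - 1, by omega⟩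
    exact Pool.Agent.Run7.h598.HM.count_ret hab hc hs.1 hs.2 hr N hK
  · exact ⟨_, Pool.Agent.Run7.h598.HM.KE_pos hd, hcount⟩
  · intro α hα C
    have hpi := Real.pi_pos
    obtain ⟨C₁, hC₁⟩ : ∃ C₁ : ℝ, C₁ = d / Real.pi * ((4 * Real.exp 1) ^ (d - 2) * |C|) + 1 :=
      ⟨_, rfl⟩
    have hC₁1 : 1 ≤ C₁ := by
      rw [hC₁]
      have : 0 ≤ d / Real.pi * ((4 * Real.exp 1) ^ (d - 2) * |C|) := by positivity
      linarith
    obtain ⟨η, hη⟩ : ∃ η : ℝ, η = (1 / (40 * C₁)) ^ (1 / α) := ⟨_, rfl⟩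
    have hη0 : 0 < η := by rw [hη]; positivity
    have hη1 : η ≤ 1 := by
      rw [hη]
      apply Real.rpow_le_one (by positivity) _ (by positivity)
      rw [div_le_one (by positivity)]
      linarith
    have hKE := Pool.Agent.Run7.h598.HM.KE_pos hd
    refine ⟨η / (320 * d), Pool.Agent.Run7.h598.HM.KE d / η, by positivity, by positivity, ?_⟩
    intro c hc hv m hm r hr hK
    have hr0 : 0 < r := hr.1
    obtain ⟨s, hs⟩ : ∃ s : ℝ, s = r ^ (1 / α) * η := ⟨_, rfl⟩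
    have hra : r ^ (1 / α) ≤ 1 := Real.rpow_le_one hr0.le hr.2 (by positivity)
    have hra0 : 0 < r ^ (1 / α) := Real.rpow_pos_of_pos hr0 _
    have hs0 : 0 < s := by rw [hs]; positivity
    have hs1 : s ≤ 1 := by
      rw [hs]
      nlinarith
    have hsα : C₁ * s ^ α = r / 40 := by
      rw [hs, hη, ← Real.mul_rpow hr0.le (by positivity), ← Real.rpow_mul (by positivity),
        one_div_mul_cancel hα.ne', Real.rpow_one]
      field_simp
    have hc2 : ‖c‖ ≤ 2 := by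
      have := (Pool.Agent.H712R2.mem_multibrot_iff hd c).1 hc 1
      rwa [Pool.Agent.H712R2.P_one hd] at this
    have hB := Pool.Agent.Run7.h598.PP.B_upper hd (α := α) (C := C) hc2 hs0 hs1 (hv s ⟨hs0, hs1⟩)
    have hBr : B d c s (d - 2) 0 < r / 20 := by
      have h1 : d / Real.pi * ((4 * Real.exp 1) ^ (d - 2) * |C|) * s ^ α ≤ C₁ * s ^ α := by
        apply mul_le_mul_of_nonneg_right _ (Real.rpow_nonneg hs0.le _)
        rw [hC₁]
        linarith
      have h2 : B d c s (d - 2) 0 ≤ C₁ * s ^ α := le_trans hB h1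
      rw [hsα] at h2
      linarith
    have hK' : Pool.Agent.Run7.h598.HM.KE d ≤ s * √d ^ m := by
      rw [div_le_iff₀ hη0] at hK
      rw [hs]
      calc _ ≤ r ^ (1 / α) * √d ^ m * η := hK
        _ = _ := by ring
    obtain ⟨h1, h2⟩ := hcount m hm c hc s ⟨hs0, hs1⟩ hK' (d - 2) 0 (by omega) (r / 20) hBr
    rw [show 20 * (r / 20) = r by ring] at h2
    refine ⟨?_, ?_⟩
    · refine le_trans (le_of_eq ?_) h2
      rw [hs]
      ring
    · rintro c' ⟨-, h3⟩
      apply Pool.Agent.H548R3.MB.att_of_centre hd hm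
      have h4 : Function.IsPeriodicPt (f d c') m 0 := by
        rw [← h3]
        exact Function.isPeriodicPt_minimalPeriod _ _
      exact h4

end Pool.Agent.Results.MP_c35c17_an.ManyCentresEveryPeriod
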