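import Mathlib
import Pool.Prelude.Def_F_c31e40fa
import Pool.Agent.Run7.h598.PP.Mis2

set_option autoImplicit false

open MeasureTheory Filter Metric Set

namespace Pool.Agent.Results.MP_c35c17_an.MisiurewiczEveryTime

/-- The map `z ↦ z ^ d + c`. -/
def f (d : ℕ) (c : ℂ) : ℂ → ℂ := fun z => z ^ d + c

/-- The escape rate (Green's function) of `z ↦ z ^ d + c` at the point `z`. -/
noncomputable def green (d : ℕ) (c z : ℂ) : ℝ :=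
  limsup (fun n : ℕ => Real.posLog ‖(f d c)^[n] z‖ / (d : ℝ) ^ n) atTop

/-- `B d c s a b` is `(d / π)` times the geometric mean of two moments of the sublevel set
`{green ≤ s}`, where `a + b = d - 2`. For `d = 2` it is `(2 / π)` times the area of the set. -/
noncomputable def B (d : ℕ) (c : ℂ) (s : ℝ) (a b : ℕ) : ℝ :=
  d / Real.pi * √((∫ z in {z | green d c z ≤ s}, ‖z‖ ^ (2 * a)) *
    ∫ z in {z | green d c z ≤ s}, ‖z‖ ^ (2 * b))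

/-- The filled Julia set of `z ^ d + c`. -/
def filledJulia (d : ℕ) (c : ℂ) : Set ℂ :=
  {z | ¬ Tendsto (fun n => (f d c)^[n] z) atTop (Bornology.cobounded ℂ)}

/-- `w` is a repelling periodic point of exact period `p` of `z ↦ z ^ d + c`. -/
def Repelling (d : ℕ) (c : ℂ) (p : ℕ) (w : ℂ) : Prop :=
  Function.minimalPeriod (f d c) w = p ∧ 1 < ‖deriv ((f d c)^[p]) w‖

/-- `0` is strictly preperiodic under `f = f d c'` with preperiod exactly `m`: the point `f^m(0)` is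
a repelling periodic point of exact period `p`, at distance less than `η` from `w₁` or from `w₂`,
and `f^(m-1)(0)` is not periodic; moreover `f^(m-1+p)(0) = ζ f^(m-1)(0)`. -/
def Hit (d p : ℕ) (w₁ w₂ ζ : ℂ) (η : ℝ) (m : ℕ) (c' : ℂ) : Prop :=
  Repelling d c' p ((f d c')^[m] 0) ∧
    (‖(f d c')^[m] 0 - w₁‖ < η ∨ ‖(f d c')^[m] 0 - w₂‖ < η) ∧
    (f d c')^[m - 1] 0 ∉ Function.periodicPts (f d c') ∧
    (f d c')^[m - 1 + p] 0 = ζ * (f d c')^[m - 1] 0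

/-- Misiurewicz parameters with one prescribed preperiod `m`, for every `m`, and a prescribed
repelling cycle. -/
theorem result (d : ℕ) (hd : 2 ≤ d) (c₀ : ℂ) (p : ℕ) (hp : 1 ≤ p) (w₁ w₂ : ℂ) (hw : w₁ ≠ w₂)
    (h₁ : Repelling d c₀ p w₁) (h₂ : Repelling d c₀ p w₂) (ζ : ℂ) (hζ : ζ ^ d = 1) (hζ1 : ζ ≠ 1) :
    -- (1) near `c₀`, at every time `m`
    (∀ ε η : ℝ, 0 < ε → 0 < η → ∃ ρ K : ℝ, 0 < ρ ∧ 0 < K ∧
      ∀ c ∈ N62a1eb23.multibrotSet d, ‖c - c₀‖ < ρ → ∀ m : ℕ, 2 ≤ m →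
      ∀ a b : ℕ, a + b + 2 = d → (1 + ε) * B d c (K / (d : ℝ) ^ m) a b < ρ →
      ∃ c' : ℂ, ‖c' - c‖ ≤ (1 + ε) * B d c (K / (d : ℝ) ^ m) a b ∧ Hit d p w₁ w₂ ζ η m c') ∧
    -- (2) area zero: every large `m`
    (c₀ ∈ N62a1eb23.multibrotSet d → volume (filledJulia d c₀) = 0 → ∀ η : ℝ, 0 < η →
      ∃ m₀ : ℕ, ∀ m : ℕ, m₀ ≤ m → ∃ c' : ℂ, ‖c' - c₀‖ < η ∧ Hit d p w₁ w₂ ζ η m c') ∧
    -- (3) polynomial decay of the level sets: exponential rate at every large `m`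
    (c₀ ∈ N62a1eb23.multibrotSet d → ∀ α C : ℝ, 0 < α →
      (∀ s ∈ Ioc (0 : ℝ) 1, volume {z : ℂ | green d c₀ z ≤ s} ≤ ENNReal.ofReal (C * s ^ α)) →
      ∀ η : ℝ, 0 < η → ∃ (K : ℝ) (m₀ : ℕ), ∀ m : ℕ, m₀ ≤ m → ∃ c' : ℂ,
        ‖c' - c₀‖ ≤ K * ((d : ℝ) ^ m) ^ (-α) ∧ Hit d p w₁ w₂ ζ η m c') :=
  ⟨fun _ _ hε hη => Pool.Agent.Run7.h598.PP.mis_main hd hp h₁ h₂ hw hζ hζ1 hε hη,
    fun hc hvol _ hη => Pool.Agent.Run7.h598.PP.mis_zero hd hp hc h₁ h₂ hw hζ hζ1 hvol hη,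
    fun hc _ _ hα hv _ hη => Pool.Agent.Run7.h598.PP.mis_expo hd hp hc h₁ h₂ hw hζ hζ1 hα hv hη⟩

end Pool.Agent.Results.MP_c35c17_an.MisiurewiczEveryTime
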