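import Mathlib
import Pool.Prelude.Def_F_c31e40fa
import Pool.Agent.Run7.h15.Tr.FC

set_option autoImplicit false

open Filter Topology Metric Set

namespace Pool.Agent.Results.MP_c35c17_an.ParabolicCentres

/-- The map `z ↦ z ^ d + c`. -/
def f (d : ℕ) (c : ℂ) : ℂ → ℂ := fun z => z ^ d + c

/-- The superattracting parameters of exact period `n` of the family `z ^ d + c`. -/
def centres (d n : ℕ) : Set ℂ :=
  {c | (f d c)^[n] 0 = 0 ∧ ∀ j : ℕ, 1 ≤ j → j < n → (f d c)^[j] 0 ≠ 0}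

/-- The laws at `c₀` with the exponent `e` and the constant `L`: the distance from `c₀` to the
nearest superattracting parameter of exact period `n` is asymptotic to `(L / n) ^ e`, and for every
`K > L` there are `d ^ ((1 - L / K + o(1)) * n)` of them in the disc of radius `(K / n) ^ e`. -/
def Laws (d : ℕ) (c₀ : ℂ) (e : ℕ) (L : ℝ) : Prop :=
  Tendsto (fun n : ℕ => (n : ℝ) ^ e * infDist c₀ (centres d n)) atTop (𝓝 (L ^ e)) ∧
  ∀ K : ℝ, L < K → Tendsto (fun n : ℕ =>
    Real.log ({c | c ∈ centres d n ∧ ‖c - c₀‖ ≤ (K / n) ^ e}.ncard) / n) atTop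
      (𝓝 ((1 - L / K) * Real.log d))

/-- **Superattracting parameters near a parabolic parameter.** Let `z₀` be a point of exact period
`p` of `z ^ d + c₀` whose multiplier is a primitive `q`-th root of unity. The laws above hold, with
`e = 2` and `L = π p √(2 / |S β|)` if `q = 1`, where `S` is the second derivative of the `p`-th
iterate at `z₀` and `β` its derivative with respect to the parameter; and with `e = 1` and
`L = 2 π p / (q |β|)` if `q ≥ 2`, where `β` is the derivative at `c₀` of the multiplier of the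
continuation of the periodic point. -/
theorem result (d : ℕ) (hd : 2 ≤ d) (c₀ z₀ : ℂ) (p : ℕ) (hp : 1 ≤ p)
    (hper : Function.minimalPeriod (f d c₀) z₀ = p) :
    (deriv ((f d c₀)^[p]) z₀ = 1 →
      ∃ S β : ℂ, S = deriv (deriv ((f d c₀)^[p])) z₀ ∧ β = deriv (fun c => (f d c)^[p] z₀) c₀ ∧
        S ≠ 0 ∧ β ≠ 0 ∧ Laws d c₀ 2 (Real.pi * p * √(2 / (‖S‖ * ‖β‖)))) ∧
    (∀ q : ℕ, 2 ≤ q → IsPrimitiveRoot (deriv ((f d c₀)^[p]) z₀) q →
      ∃ (b : ℂ → ℂ) (β : ℂ), b c₀ = z₀ ∧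
        (∀ᶠ c in 𝓝 c₀, DifferentiableAt ℂ b c ∧ (f d c)^[p] (b c) = b c) ∧
        HasDerivAt (fun c => deriv ((f d c)^[p]) (b c)) β c₀ ∧ β ≠ 0 ∧
        Laws d c₀ 1 (2 * Real.pi * p / (q * ‖β‖))) := by
  constructor
  · intro h1
    obtain ⟨hM, hS, hβ, hL, hlaw⟩ := Pool.Agent.Run7.h15.Tr.final_primitive hd hp hper h1
    refine ⟨_, _, rfl, rfl, hS, hβ, ?_, ?_⟩
    · exact Pool.Agent.Run7.h15.Tr.dist_law hd (by norm_num) hL hlaw
    · intro K hK
      exact Pool.Agent.Run7.h15.Tr.count_law hd (by norm_num) hL hlaw hM hK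
  · intro q hq hprim
    obtain ⟨hM, b, hb0, hbd, hbz, β, hβ0, hβ, hL, hlaw⟩ :=
      Pool.Agent.Run7.h15.Tr.final_satellite hd hp hq hper hprim
    refine ⟨b, β, hb0, hbd.and hbz, hβ, hβ0, ?_, ?_⟩
    · exact Pool.Agent.Run7.h15.Tr.dist_law hd le_rfl hL hlaw
    · intro K hK
      exact Pool.Agent.Run7.h15.Tr.count_law hd le_rfl hL hlaw hM hK

end Pool.Agent.Results.MP_c35c17_an.ParabolicCentres
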