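import Mathlib
import Pool.Prelude.Def_F_c31e40fa
import Pool.Agent.Run7.h598.PP.Ex

set_option autoImplicit false

open MeasureTheory Filter Metric Set

namespace Pool.Agent.Results.MP_c35c17_an.PrescribedPeriods

/-- The map `z ↦ z ^ d + c`. -/
def f (d : ℕ) (c : ℂ) : ℂ → ℂ := fun z => z ^ d + c

/-- The escape rate (Green's function) of `z ↦ z ^ d + c` at the point `z`. -/
noncomputable def green (d : ℕ) (c z : ℂ) : ℝ :=
  limsup (fun n : ℕ => Real.posLog ‖(f d c)^[n] z‖ / (d : ℝ) ^ n) atTop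

/-- `B d c s a b` is `(d / π)` times the geometric mean of two moments of the sublevel set
`{green ≤ s}`, where `a + b = d - 2`. For `d = 2` it is `(2 / π)` times the area of the set. -/
noncomputable def B (d : ℕ) (c : ℂ) (s : ℝ) (a b : ℕ) : ℝ :=
  d / Real.pi * √((∫ z in {z | green d c z ≤ s}, ‖z‖ ^ (2 * a)) *
    ∫ z in {z | green d c z ≤ s}, ‖z‖ ^ (2 * b))

theorem minPer {d : ℕ} (hd : 2 ≤ d) {c : ℂ} (hc : c ≠ 0) {p : ℕ} (hp : p.Prime)
    (h : (f d c)^[p] 0 = 0) : Function.minimalPeriod (f d c) 0 = p := by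
  have h1 : Function.IsPeriodicPt (f d c) p 0 := h
  rcases (Nat.dvd_prime hp).mp h1.minimalPeriod_dvd with h2 | h2
  · exfalso
    have h3 : f d c 0 = 0 := Function.minimalPeriod_eq_one_iff_isFixedPt.mp h2
    have h4 : (0 : ℂ) ^ d + c = 0 := h3
    rw [zero_pow (by omega), zero_add] at h4
    exact hc h4
  · exact h2

/-- Effective density of hyperbolicity in the Multibrot sets, by superattracting parameters with
one prescribed return time; in particular of exact period `p`, for every prime number `p`. -/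
theorem result (d : ℕ) (hd : 2 ≤ d) :
    -- (1) holomorphic discs without parameters with `f^m(0) = 0`, for a single `m`
    (∀ ε : ℝ, 0 < ε → ∃ K : ℝ, 0 < K ∧ ∀ m : ℕ, 2 ≤ m → ∀ γ : ℂ → ℂ,
      DifferentiableOn ℂ γ (ball 0 1) → γ 0 ∈ N62a1eb23.multibrotSet d →
      (∀ t ∈ ball (0 : ℂ) 1, (f d (γ t))^[m] 0 ≠ 0) →
      ∀ a b : ℕ, a + b + 2 = d →
        ‖deriv γ 0‖ ≤ (1 + ε) * B d (γ 0) (K / (d : ℝ) ^ m) a b) ∧
    -- (2) the distance to the nearest parameter with `f^m(0) = 0`, for each `m`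
    (∀ ε : ℝ, 0 < ε → ∃ K : ℝ, 0 < K ∧ ∀ m : ℕ, 2 ≤ m → ∀ c ∈ N62a1eb23.multibrotSet d, ∃ c' : ℂ,
      (f d c')^[m] 0 = 0 ∧ N62a1eb23.IsAttractingCycle (f d c') m 0 ∧
      ∀ a b : ℕ, a + b + 2 = d → ‖c' - c‖ ≤ (1 + ε) * B d c (K / (d : ℝ) ^ m) a b) ∧
    -- (3) superattracting cycles of exact period `p`, for every prime number `p`
    (∃ C K : ℝ, 0 < C ∧ 0 < K ∧ ∀ p : ℕ, p.Prime → ∀ c ∈ N62a1eb23.multibrotSet d, ∃ c' : ℂ,
      Function.minimalPeriod (f d c') 0 = p ∧ N62a1eb23.IsAttractingCycle (f d c') p 0 ∧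
      ∀ a b : ℕ, a + b + 2 = d → ‖c' - c‖ ≤ C * B d c (K / (d : ℝ) ^ p) a b) ∧
    -- (4) exponential density at parameters with polynomial decay, for each prime period
    (∀ α : ℝ, 0 < α → ∀ C : ℝ, ∃ K : ℝ, ∀ c ∈ N62a1eb23.multibrotSet d,
      (∀ s ∈ Ioc (0 : ℝ) 1, volume {z : ℂ | green d c z ≤ s} ≤ ENNReal.ofReal (C * s ^ α)) →
      ∀ p : ℕ, p.Prime → ∃ c' : ℂ, Function.minimalPeriod (f d c') 0 = p ∧
        N62a1eb23.IsAttractingCycle (f d c') p 0 ∧ ‖c' - c‖ ≤ K * ((d : ℝ) ^ p) ^ (-α)) := by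
  have hdR : (2 : ℝ) ≤ d := by exact_mod_cast hd
  have hKpos : ∀ k, 0 < Pool.Agent.Run7.h598.PP.KP d k := by
    intro k
    have h1 := Pool.Agent.Run7.h598.PP.lt_KP hd k
    linarith
  refine ⟨?_, ?_, ?_, ?_⟩
  · intro ε hε
    obtain ⟨k, hk⟩ := Pool.Agent.H548R3.MB.exists_k hε
    refine ⟨_, hKpos k, ?_⟩
    intro m hm γ hγ hc hno a b hab
    obtain ⟨J, rfl⟩ : ∃ J, m = J + 2 := ⟨m - 2, by omega⟩
    exact Pool.Agent.H548R3.MB.scale hε (norm_nonneg _) hk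
      (Pool.Agent.Run7.h598.PP.disc_ineq1 hab hγ hc (fun t ht h3 => hno t ht h3) k)
  · intro ε hε
    obtain ⟨k, hk⟩ := Pool.Agent.H548R3.MB.exists_k hε
    refine ⟨_, hKpos k, ?_⟩
    intro m hm c hc
    obtain ⟨J, rfl⟩ : ∃ J, m = J + 2 := ⟨m - 2, by omega⟩
    obtain ⟨c', hc', h⟩ := Pool.Agent.Run7.h598.PP.nearest1 hd hc J
    refine ⟨c', hc', Pool.Agent.H548R3.MB.att_of_centre hd (by omega) hc', ?_⟩
    intro a b hab
    exact Pool.Agent.H548R3.MB.scale hε (norm_nonneg _) hk (h k a b hab)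
  · obtain ⟨k, hk⟩ := Pool.Agent.H548R3.MB.exists_k one_pos
    refine ⟨Pool.Agent.Run7.h598.PP.CE d, _, ?_, hKpos k, ?_⟩
    · unfold Pool.Agent.Run7.h598.PP.CE
      positivity
    intro p hp c hc
    have hp2 := hp.two_le
    obtain ⟨J, rfl⟩ : ∃ J, p = J + 2 := ⟨p - 2, by omega⟩
    obtain ⟨c', hc'0, hc', -, h⟩ := Pool.Agent.Run7.h598.PP.nearest_ne hd hk hc J
    exact ⟨c', minPer hd hc'0 hp hc', Pool.Agent.H548R3.MB.att_of_centre hd (by omega) hc', h⟩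
  · intro α hα C
    obtain ⟨K, hK⟩ := Pool.Agent.Run7.h598.PP.expo_ne hd hα C
    refine ⟨K, ?_⟩
    intro c hc hv p hp
    obtain ⟨c', hc'0, hc', h⟩ := hK c hc hv p hp.two_le
    exact ⟨c', minPer hd hc'0 hp hc', Pool.Agent.H548R3.MB.att_of_centre hd hp.one_le hc', h⟩

end Pool.Agent.Results.MP_c35c17_an.PrescribedPeriods
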